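import Pool.Agent.H482R3.EA.Stm

set_option autoImplicit false

namespace Pool.Agent.H127R2.EA

open Pool.Agent.H482R3.EA

theorem t_BS : S_BS := by
  intro α _ p B hp hB
  rw [ComputablePred.computable_iff] at hp ⊢
  obtain ⟨f, hf, hpf⟩ := hp
  refine ⟨fun x => Nat.rec (f (x, 0)) (fun k b => b || f (x, k + 1)) (B x), ?_, ?_⟩
  · have h1 : Computable fun q : α × ℕ × Bool => q.2.2 := Computable.snd.comp Computable.snd
    have h2 : Computable fun q : α × ℕ × Bool => f (q.1, q.2.1 + 1) :=
      hf.comp (Computable.pair Computable.fst (Computable.succ.comp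
        (Computable.fst.comp Computable.snd)))
    have h3 : Computable₂ (fun (x : α) (q : ℕ × Bool) => q.2 || f (x, q.1 + 1)) :=
      (Primrec.or.to_comp.comp h1 h2 : _)
    have h0 : Computable fun x : α => f (x, 0) :=
      hf.comp (Computable.pair Computable.id (Computable.const 0))
    exact (Computable.nat_rec (f := B) (g := fun x => f (x, 0))
      (h := fun (x : α) (q : ℕ × Bool) => q.2 || f (x, q.1 + 1)) hB h0 h3).of_eq (fun _ => rfl)
  · have key : ∀ x m, (Nat.rec (f (x, 0)) (fun k b => b || f (x, k + 1)) m : Bool) = true ↔
        ∃ n, n ≤ m ∧ f (x, n) = true := by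
      intro x m
      induction m with
      | zero =>
        constructor
        · intro h; exact ⟨0, le_refl _, h⟩
        · rintro ⟨n, hn, h⟩
          have : n = 0 := by omega
          subst this
          exact h
      | succ m ih =>
        have e : (Nat.rec (f (x, 0)) (fun k b => b || f (x, k + 1)) (m + 1) : Bool) =
            ((Nat.rec (f (x, 0)) (fun k b => b || f (x, k + 1)) m : Bool) || f (x, m + 1)) := rfl
        rw [e, Bool.or_eq_true, ih]
        constructor
        · rintro (⟨n, hn, h⟩ | h)
          · exact ⟨n, by omega, h⟩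
          · exact ⟨m + 1, le_refl _, h⟩
        · rintro ⟨n, hn, h⟩
          rcases Nat.lt_or_ge n (m + 1) with hlt | hge
          · exact Or.inl ⟨n, by omega, h⟩
          · have : n = m + 1 := by omega
            subst this
            exact Or.inr h
    funext x
    rw [hpf]
    exact propext (key x (B x)).symm

end Pool.Agent.H127R2.EA
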