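import Pool.Agent.H482R3.EA.Stm

set_option autoImplicit false

namespace Pool.Agent.H127R2.EA

open Pool.Agent.H482R3.EA

/-- the letter before position `i` -/
def CH_prev {α : Type} (s : Option α) (l : List α) (i : ℕ) : Option α :=
  Nat.casesOn i s (fun j => l[j]?)

/-- test at position `i` -/
def CH_Q {α : Type} (r : Option α × α → Bool) (s : Option α) (l : List α) (i : ℕ) : Bool :=
  Option.casesOn (l[i]?) true (fun a => r (CH_prev s l i, a))

/-- conjunction of the tests -/
def CH_all (Q : ℕ → Bool) (n : ℕ) : Bool := Nat.rec true (fun i b => b && Q i) n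

theorem CH_all_iff (Q : ℕ → Bool) (n : ℕ) : CH_all Q n = true ↔ ∀ i < n, Q i = true := by
  induction n with
  | zero => simp [CH_all]
  | succ n ih =>
    have e : CH_all Q (n + 1) = (CH_all Q n && Q n) := rfl
    rw [e, Bool.and_eq_true, ih]
    constructor
    · rintro ⟨h1, h2⟩ i hi
      rcases Nat.lt_or_ge i n with h | h
      · exact h1 i h
      · have : i = n := by omega
        subst this
        exact h2
    · intro h
      exact ⟨fun i hi => h i (by omega), h n (by omega)⟩

theorem CH_spec {α : Type} (r : Option α × α → Bool) (C : Option α → List α → Prop)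
    (h0 : ∀ s, C s []) (h1 : ∀ s a l, C s (a :: l) ↔ r (s, a) = true ∧ C (some a) l)
    (l : List α) : ∀ s, C s l ↔ ∀ i < l.length, CH_Q r s l i = true := by
  induction l with
  | nil => intro s; simp [h0]
  | cons a l ih =>
    intro s
    rw [h1, ih]
    constructor
    · rintro ⟨h2, h3⟩ i hi
      cases i with
      | zero => simpa [CH_Q, CH_prev] using h2
      | succ j =>
        have hj : j < l.length := by simpa using hi
        have := h3 j hj
        cases j with
        | zero => simpa [CH_Q, CH_prev] using this
        | succ k => simpa [CH_Q, CH_prev] using this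
    · intro h
      refine ⟨?_, ?_⟩
      · have := h 0 (by simp)
        simpa [CH_Q, CH_prev] using this
      · intro j hj
        have := h (j + 1) (by simpa using hj)
        cases j with
        | zero => simpa [CH_Q, CH_prev] using this
        | succ k => simpa [CH_Q, CH_prev] using this

theorem t_CH : S_CH := by
  intro α _ R C h0 h1 hR
  rw [ComputablePred.computable_iff] at hR ⊢
  obtain ⟨r, hr, hRr⟩ := hR
  have hR' : ∀ s a, R s a ↔ r (s, a) = true := fun s a => by
    have := congrFun hRr (s, a)
    simp only at this
    rw [this]
  have hspec := CH_spec r C h0 (fun s a l => by rw [h1, hR'])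
  refine ⟨fun p => CH_all (CH_Q r p.1 p.2) p.2.length, ?_, ?_⟩
  · have g1 : Computable fun q : (Option α × List α) × ℕ => q.1.1 :=
      Computable.fst.comp Computable.fst
    have g2 : Computable fun q : (Option α × List α) × ℕ => q.1.2 :=
      Computable.snd.comp Computable.fst
    have g3 : Computable₂ (fun (q : (Option α × List α) × ℕ) (j : ℕ) => (q.1.2)[j]?) :=
      Computable.list_getElem?.comp (g2.comp Computable.fst) Computable.snd
    have hprev : Computable fun q : (Option α × List α) × ℕ => CH_prev q.1.1 q.1.2 q.2 :=
      (Computable.nat_casesOn (f := fun q : (Option α × List α) × ℕ => q.2)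
        (g := fun q => q.1.1) (h := fun q j => (q.1.2)[j]?) Computable.snd g1 g3).of_eq
        (fun _ => rfl)
    have g4 : Computable fun q : (Option α × List α) × ℕ => (q.1.2)[q.2]? :=
      Computable.list_getElem?.comp g2 Computable.snd
    have g5 : Computable₂ (fun (q : (Option α × List α) × ℕ) (a : α) =>
        r (CH_prev q.1.1 q.1.2 q.2, a)) :=
      hr.comp (Computable.pair (hprev.comp Computable.fst) Computable.snd)
    have hQ : Computable fun q : (Option α × List α) × ℕ => CH_Q r q.1.1 q.1.2 q.2 :=
      (Computable.option_casesOn (o := fun q : (Option α × List α) × ℕ => (q.1.2)[q.2]?)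
        (f := fun _ => true) (g := fun q a => r (CH_prev q.1.1 q.1.2 q.2, a)) g4
        (Computable.const true) g5).of_eq (fun _ => rfl)
    have h2 : Computable fun q : (Option α × List α) × ℕ × Bool => CH_Q r q.1.1 q.1.2 q.2.1 :=
      hQ.comp (Computable.pair Computable.fst (Computable.fst.comp Computable.snd))
    have h3 : Computable fun q : (Option α × List α) × ℕ × Bool => q.2.2 :=
      Computable.snd.comp Computable.snd
    have h4 : Computable₂ (fun (p : Option α × List α) (q : ℕ × Bool) =>
        q.2 && CH_Q r p.1 p.2 q.1) := (Primrec.and.to_comp.comp h3 h2 : _)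
    have h5 : Computable fun p : Option α × List α => p.2.length :=
      (Computable.list_length (α := α)).comp Computable.snd
    exact (Computable.nat_rec (f := fun p : Option α × List α => p.2.length)
      (g := fun _ => true) (h := fun (p : Option α × List α) (q : ℕ × Bool) =>
        q.2 && CH_Q r p.1 p.2 q.1) h5 (Computable.const true) h4).of_eq (fun _ => rfl)
  · funext p
    rw [hspec, ← CH_all_iff]

end Pool.Agent.H127R2.EA
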