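import Pool.Agent.H482R3.EA.Stm

set_option autoImplicit false

namespace Pool.Agent.H127R2.EA

open Pool.Agent.H482R3.EA

theorem t_EV : S_EV := by
  intro S G _ f
  refine ⟨?_, ?_, ?_⟩
  · intro u u'
    simp [ev, List.map_append, List.prod_append]
  · intro u
    unfold ev inv
    rw [List.prod_inv_reverse, List.map_reverse, List.map_map, List.map_map]
    congr 2
    apply List.map_congr_left
    rintro ⟨a, b⟩ _
    cases b <;> simp
  · intro s n
    constructor
    · simp [ev, List.map_replicate, List.prod_replicate]
    · simp [ev, List.map_replicate, List.prod_replicate]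

end Pool.Agent.H127R2.EA
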