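import Pool.Agent.H482R3.EA.Stm

set_option autoImplicit false

namespace Pool.Agent.H127R2.EA

open Pool.Agent.H482R3.EA

section

variable {S : Type} [DecidableEq S]

theorem EX_cons_true (s : S) (u : W S) : expo s ((s, true) :: u) = expo s u + 1 := by
  unfold expo
  simp only [List.count_cons, Prod.mk.injEq, beq_iff_eq]
  simp
  ring

theorem EX_cons_false (s : S) (u : W S) : expo s ((s, false) :: u) = expo s u - 1 := by
  unfold expo
  simp only [List.count_cons, Prod.mk.injEq, beq_iff_eq]
  simp
  ring

theorem EX_cons_ne {s t : S} (h : t ≠ s) (b : Bool) (u : W S) :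
    expo s ((t, b) :: u) = expo s u := by
  unfold expo
  simp only [List.count_cons, Prod.mk.injEq, beq_iff_eq]
  simp [h]

theorem EX_ev_cons {G : Type} [Group G] (f : S → G) (a : S × Bool) (u : W S) :
    ev f (a :: u) = (if a.2 then f a.1 else (f a.1)⁻¹) * ev f u := by
  simp [ev]

/-- the exponent sum homomorphism -/
noncomputable def EX_phi (c : S → S → ℕ) (s : S) : EA c →* Multiplicative ℤ :=
  PresentedGroup.toGroup (f := fun t => if t = s then Multiplicative.ofAdd (1 : ℤ) else 1) (by
    rintro r ⟨a, b, -, -, rfl⟩
    simp only [map_mul, map_inv, map_pow, FreeGroup.lift_apply_of]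
    rw [mul_comm (if b = s then Multiplicative.ofAdd (1 : ℤ) else 1)
      (if a = s then Multiplicative.ofAdd (1 : ℤ) else 1), mul_inv_cancel])

theorem EX_phi_gen (c : S → S → ℕ) (s t : S) :
    EX_phi c s (gen c t) = if t = s then Multiplicative.ofAdd (1 : ℤ) else 1 := by
  unfold EX_phi gen
  exact PresentedGroup.toGroup.of _

theorem EX_phi_ev (c : S → S → ℕ) (s : S) (u : W S) :
    EX_phi c s (ev (gen c) u) = Multiplicative.ofAdd (expo s u) := by
  induction u with
  | nil => simp [ev, expo]
  | cons a u ih =>
    obtain ⟨t, b⟩ := a
    rw [EX_ev_cons, map_mul, ih]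
    by_cases h : t = s
    · subst h
      cases b
      · rw [EX_cons_false]
        simp only [Bool.false_eq_true, if_false, map_inv, EX_phi_gen, if_true]
        rw [← ofAdd_neg, ← ofAdd_add]
        congr 1
        ring
      · rw [EX_cons_true]
        simp only [if_true, EX_phi_gen]
        rw [← ofAdd_add]
        congr 1
        ring
    · rw [EX_cons_ne h]
      cases b <;> simp [EX_phi_gen, h]

end

theorem t_EX : S_EX := by
  intro S _ c s
  refine ⟨?_, ?_, ?_, ?_, ?_⟩
  · intro u u' h
    have h1 := EX_phi_ev c s u
    rw [h, EX_phi_ev] at h1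
    exact (Multiplicative.ofAdd.injective h1).symm
  · intro u
    induction u with
    | nil => simp [ev, expo, fil]
    | cons a u ih =>
      obtain ⟨t, b⟩ := a
      by_cases h : t = s
      · subst h
        have hf : fil t ((t, b) :: u) = (t, b) :: fil t u := by simp [fil]
        rw [hf, EX_ev_cons, ih]
        cases b
        · rw [EX_cons_false, sub_eq_neg_add, zpow_add, zpow_neg_one]
          simp
        · rw [EX_cons_true, add_comm, zpow_add, zpow_one]
          simp
      · have hf : fil s ((t, b) :: u) = fil s u := by simp [fil, h]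
        rw [hf, EX_cons_ne h, ih]
  · intro u
    unfold expo fil
    rw [List.count_filter (by simp), List.count_filter (by simp)]
  · intro u u'
    unfold expo
    rw [List.count_append, List.count_append]
    push_cast
    ring
  · intro u
    have hinj : Function.Injective (fun a : S × Bool => (a.1, !a.2)) := by
      rintro ⟨a, b⟩ ⟨a', b'⟩ h
      simp only [Prod.mk.injEq, Bool.not_inj_iff] at h
      exact Prod.ext h.1 h.2
    unfold expo inv
    rw [List.count_reverse, List.count_reverse]
    have h1 := List.count_map_of_injective u _ hinj (s, false)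
    have h2 := List.count_map_of_injective u _ hinj (s, true)
    simp only [Bool.not_false, Bool.not_true] at h1 h2
    rw [h1, h2]
    ring

end Pool.Agent.H127R2.EA
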